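import Mathlib

/-!
# Tree Prikry forcing adds no fresh subset of `κ⁺`

Let `κ` be an uncountable cardinal and let `U` be any `κ`-complete non-principal ultrafilter over
`κ` (not assumed normal, nor to have the Galvin property). Tree Prikry forcing with `U` adds no
fresh subset of `κ⁺`, nor of any ordinal `δ` of cofinality greater than `κ`.

Idea. Suppose that `p` forces that `A ⊆ δ` is fresh. For each `α < δ` there is a condition `r ≤ p`
that decides `A ∩ α`, and there are two conditions `q α 0, q α 1 ≤ r` that decide membership of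
some ordinal `γ α` in `A` in different ways. There are only `κ` pairs of stems. As the cofinality
of `δ` is greater than `κ`, there are `α` and `β > γ α` such that the stems of `q α i` and `q β i`
are the same for both `i`. Then `q α i` and `q β i` have a common extension `t i` for both `i`. Both
`t 0` and `t 1` decide `A ∩ β` in the same way, but `γ α` in different ways, a contradiction.
-/

set_option autoImplicit false

namespace Pool.Agent.Results.MP_becacd_lc.NoFreshSubsets

open Cardinal Set

universe u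

/-! ### The forcing language

A sentence of the forcing language of a preordered set `P` (smaller conditions are stronger) is
represented by the set of the conditions which force it. -/

section Language

variable {P : Type u} [Preorder P]

/-- `p` forces `not φ`: no `q ≤ p` forces `φ`. -/
def Fnot (φ : Set P) : Set P := {p | ∀ q ≤ p, q ∉ φ}

/-- `p` forces `φ and ψ`: it forces both. -/
def Fand (φ ψ : Set P) : Set P := {p | p ∈ φ ∧ p ∈ ψ}

/-- `p` forces `for all i, φ i`: it forces every `φ i`. -/
def Fall {ι : Type u} (φ : ι → Set P) : Set P := {p | ∀ i, p ∈ φ i}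

/-- `there is i with φ i` is `not for all i, not φ i`. -/
def Fex {ι : Type u} (φ : ι → Set P) : Set P := Fnot (Fall fun i => Fnot (φ i))

/-- `p` forces that the generic filter meets `N`: the set of the conditions that lie below some
member of `N` is dense below `p`. -/
def Meets (N : Set P) : Set P := {p | ∀ q ≤ p, ∃ r ≤ q, ∃ s ∈ N, r ≤ s}

/-- A name `A` for a subset of the ground model set `X` is a map from `X` to the sets of conditions;
it names the set of all `x` such that the generic filter meets `A x`. The following is the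
sentence: for all `x` with the property `D`, `x` is in the set named by `A` iff `x` is in the
ground model set `a`. -/
def AgreesOn {X : Type u} (D : X → Prop) (A : X → Set P) (a : Set X) : Set P :=
  {p | ∀ x, D x → (x ∈ a → p ∈ Meets (A x)) ∧ (x ∉ a → p ∈ Fnot (Meets (A x)))}

/-- The sentence: the set named by `A` is fresh over the ground model. It is not in the ground
model (it is not equal to any ground model set `a`), but for each `α < δ` its intersection with
`α` is in the ground model. -/
def Fresh {δ : Ordinal.{u}} (A : δ.ToType → Set P) : Set P :=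
  Fand (Fnot (Fex fun a : Set δ.ToType => AgreesOn (fun _ => True) A a))
    (Fall fun α : δ.ToType => Fex fun a : Set δ.ToType => AgreesOn (fun x => x < α) A a)

end Language

/-! ### Tree Prikry forcing -/

/-- Conditions of tree Prikry forcing with the ultrafilter `U` over the well-ordered set `K`: a
finite increasing sequence `stem` and a tree `tree` of finite increasing sequences with the stem
`stem` such that each node `t` of the tree that extends `stem` has a set of immediate successors
in `U`. -/
structure TreePrikry {K : Type u} [LinearOrder K] (U : Ultrafilter K) where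
  /-- the stem -/
  stem : List K
  /-- the tree -/
  tree : Set (List K)
  increasing : ∀ t ∈ tree, t.Pairwise (· < ·)
  initial : ∀ t ∈ tree, ∀ s, s <+: t → s ∈ tree
  stem_mem : stem ∈ tree
  stem_spec : ∀ t ∈ tree, t <+: stem ∨ stem <+: t
  successors : ∀ t ∈ tree, stem <+: t → {a | t ++ [a] ∈ tree} ∈ U

/-- `(t, S) ≤ (s, T)` iff `t ∈ T`, `t` end-extends `s`, and `S ⊆ T`. -/
instance {K : Type u} [LinearOrder K] (U : Ultrafilter K) : Preorder (TreePrikry U) where
  le p q := p.stem ∈ q.tree ∧ q.stem <+: p.stem ∧ p.tree ⊆ q.tree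
  le_refl p := ⟨p.stem_mem, List.prefix_rfl, subset_rfl⟩
  le_trans p q r h h' := ⟨h'.2.2 h.1, h'.2.1.trans h.2.1, h.2.2.trans h'.2.2⟩

section

variable {P : Type u} [Preorder P]

theorem mem_Fex {ι : Type u} {φ : ι → Set P} {p : P} :
    p ∈ Fex φ ↔ ∀ q ≤ p, ∃ r ≤ q, ∃ i, r ∈ φ i := by
  simp only [Fex, Fnot, Fall, Set.mem_ofPred_eq, not_forall, not_not]
  constructor
  · intro h q hq
    obtain ⟨i, r, hr, h'⟩ := h q hq
    exact ⟨r, hr, i, h'⟩
  · intro h q hq
    obtain ⟨r, hr, i, h'⟩ := h q hq
    exact ⟨i, r, hr, h'⟩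

theorem meets_mono {N : Set P} {p q : P} (h : p ∈ Meets N) (hq : q ≤ p) : q ∈ Meets N :=
  fun r hr => h r (hr.trans hq)

theorem fnot_mono {N : Set P} {p q : P} (h : p ∈ Fnot N) (hq : q ≤ p) : q ∈ Fnot N :=
  fun r hr => h r (hr.trans hq)

theorem agreesOn_mono {X : Type u} {D : X → Prop} {A : X → Set P} {a : Set X} {p q : P}
    (h : p ∈ AgreesOn D A a) (hq : q ≤ p) : q ∈ AgreesOn D A a :=
  fun x hx => ⟨fun h' => meets_mono ((h x hx).1 h') hq, fun h' => fnot_mono ((h x hx).2 h') hq⟩

/-- A forcing that is the union of `κ` linked sets adds no fresh subset of `δ` if the cofinality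
of `δ` is greater than `κ`. -/
theorem not_fresh {S : Type u} (st : P → S)
    (hst : ∀ p q : P, st p = st q → ∃ r, r ≤ p ∧ r ≤ q)
    {δ : Ordinal.{u}} (hδ : ℵ₀ < δ.cof) (hS : #S < δ.cof) (A : δ.ToType → Set P) (p : P) :
    p ∉ Fresh A := by
  rintro ⟨h1, h2⟩
  have hp : ∀ q ≤ p, ∀ a : Set δ.ToType, q ∉ AgreesOn (fun _ => True) A a := by
    intro q hq a ha
    refine h1 q hq (mem_Fex.2 fun r hr => ⟨r, le_rfl, a, agreesOn_mono ha hr⟩)
  -- conditions deciding differently
  have key : ∀ α : δ.ToType, ∃ a : Set δ.ToType, ∃ γ : δ.ToType, ∃ q0 q1 : P,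
      q0 ∈ AgreesOn (fun x => x < α) A a ∧ q1 ∈ AgreesOn (fun x => x < α) A a ∧
      q0 ∈ Meets (A γ) ∧ q1 ∈ Fnot (Meets (A γ)) := by
    intro α
    obtain ⟨r, hr, a, ha⟩ := mem_Fex.1 (h2 α) p le_rfl
    -- the set of all `x` with `r` forcing `x ∈ A`
    have h3 := hp r hr {x | r ∈ Meets (A x)}
    have h4 : ∃ x, r ∉ Meets (A x) ∧ r ∉ Fnot (Meets (A x)) := by
      by_contra hcon
      push Not at hcon
      exact h3 fun x _ => ⟨fun hx => hx, fun hx => hcon x hx⟩
    obtain ⟨x, hx1, hx2⟩ := h4
    have h5 : ∃ q ≤ r, q ∈ Meets (A x) := by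
      by_contra hcon
      push Not at hcon
      exact hx2 hcon
    have h6 : ∃ q ≤ r, q ∈ Fnot (Meets (A x)) := by
      by_contra hcon
      push Not at hcon
      apply hx1
      intro q hq
      have h7 := hcon q hq
      have h8 : ∃ s ≤ q, s ∈ Meets (A x) := by
        by_contra hcon'
        push Not at hcon'
        exact h7 hcon'
      obtain ⟨s, hs, hs'⟩ := h8
      obtain ⟨t, ht, n, hn, hle⟩ := hs' s le_rfl
      exact ⟨t, ht.trans hs, n, hn, hle⟩
    obtain ⟨q0, hq0, h7⟩ := h5
    obtain ⟨q1, hq1, h8⟩ := h6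
    exact ⟨a, x, q0, q1, agreesOn_mono ha hq0, agreesOn_mono ha hq1, h7, h8⟩
  choose a γ q0 q1 hq0 hq1 hm0 hm1 using key
  -- pigeonhole
  have hbig : ∃ c : S × S, IsCofinal {α : δ.ToType | (st (q0 α), st (q1 α)) = c} := by
    apply isCofinal_of_isCofinal_iUnion
    · have : (⋃ c : S × S, {α : δ.ToType | (st (q0 α), st (q1 α)) = c}) = Set.univ := by
        ext x
        simp
      rw [this]
      exact IsCofinal.univ
    · rw [Ordinal.cof_toType, Cardinal.mk_prod, Cardinal.lift_id]
      exact Cardinal.mul_lt_of_lt hδ.le hS hS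
  obtain ⟨c, hc⟩ := hbig
  have hlim : Order.IsSuccLimit δ := Ordinal.one_lt_cof_iff.1 (Cardinal.one_lt_aleph0.trans hδ)
  have hmax : NoMaxOrder δ.ToType := by
    rw [← Ordinal.isSuccPrelimit_type_lt_iff, Ordinal.type_toType]
    exact hlim.isSuccPrelimit
  have hne : Nonempty δ.ToType := by
    rw [← Cardinal.mk_ne_zero_iff]
    intro h0
    have h1 : δ.cof ≤ 0 := by
      rw [← Ordinal.cof_toType, ← h0]
      exact Order.cof_le_cardinalMk _
    exact absurd (hδ.trans_le h1) (not_lt.2 (Cardinal.aleph0_pos.le))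
  obtain ⟨x0⟩ := hne
  obtain ⟨α, hα, -⟩ := hc x0
  obtain ⟨y, hy⟩ := exists_gt (γ α)
  obtain ⟨β, hβ, hyβ⟩ := hc y
  have hlt : γ α < β := hy.trans_le hyβ
  simp only [Set.mem_ofPred_eq] at hα hβ
  rw [← hβ] at hα
  obtain ⟨h0, h1⟩ := Prod.ext_iff.1 hα
  obtain ⟨t0, ht0, ht0'⟩ := hst _ _ h0
  obtain ⟨t1, ht1, ht1'⟩ := hst _ _ h1
  by_cases hmem : γ α ∈ a β
  · -- `t1` forces both
    have h3 := (agreesOn_mono (hq1 β) ht1' (γ α) hlt).1 hmem
    exact hm1 α t1 ht1 h3
  · have h3 := (agreesOn_mono (hq0 β) ht0' (γ α) hlt).2 hmem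
    exact h3 t0 le_rfl (meets_mono (hm0 α) ht0)

end

/-- Two conditions of tree Prikry forcing with the same stem are compatible. -/
theorem compatible {K : Type u} [LinearOrder K] (U : Ultrafilter K) (p q : TreePrikry U)
    (h : p.stem = q.stem) : ∃ r, r ≤ p ∧ r ≤ q := by
  refine ⟨⟨p.stem, p.tree ∩ q.tree, fun t ht => p.increasing t ht.1,
    fun t ht s hs => ⟨p.initial t ht.1 s hs, q.initial t ht.2 s hs⟩,
    ⟨p.stem_mem, h ▸ q.stem_mem⟩, fun t ht => p.stem_spec t ht.1, fun t ht hs => ?_⟩,
    ⟨p.stem_mem, List.prefix_rfl, inter_subset_left⟩,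
    ⟨h ▸ q.stem_mem, (by rw [h] : q.stem <+: p.stem), inter_subset_right⟩⟩
  exact Filter.inter_mem (p.successors t ht.1 hs) (q.successors t ht.2 (h ▸ hs))

/-- Let `κ` be an uncountable cardinal and `U` a `κ`-complete non-principal ultrafilter over `κ`.
No condition of tree Prikry forcing with `U` forces that some set is a fresh subset of `κ⁺`, and
the same is true of all ordinals `δ` of cofinality greater than `κ` in place of `κ⁺`. Here `A` runs
through all names for subsets of the ordinal. -/
theorem result (κ : Cardinal.{u}) (hκ : ℵ₀ < κ) (U : Ultrafilter κ.ord.ToType)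
    (_hcomplete : ∀ S : Set (Set κ.ord.ToType), #S < κ → (∀ s ∈ S, s ∈ U) → ⋂₀ S ∈ U)
    (_hnonprincipal : ∀ a : κ.ord.ToType, {a} ∉ U) :
    (∀ (A : (Order.succ κ).ord.ToType → Set (TreePrikry U)) (p : TreePrikry U), p ∉ Fresh A) ∧
    ∀ δ : Ordinal.{u}, κ < δ.cof →
      ∀ (A : δ.ToType → Set (TreePrikry U)) (p : TreePrikry U), p ∉ Fresh A := by
  have main : ∀ δ : Ordinal.{u}, κ < δ.cof →
      ∀ (A : δ.ToType → Set (TreePrikry U)) (p : TreePrikry U), p ∉ Fresh A := by
    intro δ hδ A p
    refine not_fresh (fun p : TreePrikry U => p.stem) (fun p q h => compatible U p q h)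
      (hκ.trans hδ) ?_ A p
    have h1 : #κ.ord.ToType = κ := Cardinal.mk_ord_toType κ
    have : Infinite κ.ord.ToType := by
      rw [Cardinal.infinite_iff, h1]
      exact hκ.le
    rw [Cardinal.mk_list_eq_mk, h1]
    exact hδ
  refine ⟨fun A p => main _ ?_ A p, main⟩
  rw [(Cardinal.isRegular_succ hκ.le).cof_ord]
  exact Order.lt_succ κ

end Pool.Agent.Results.MP_becacd_lc.NoFreshSubsets
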